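import Mathlib

set_option autoImplicit false

/-!
A T1 space admitting a positive refinement expansive homeomorphism is finite.
-/

universe u

namespace Pool.Agent.Results.MP_b50e26_gt.FiniteT1

open Set

/-- The set `⋂_{j=0}^{N} f^{-j}(U_{k_j})`. -/
def itin {X : Type u} (f : X → X) {n : ℕ} (U : Fin n → Set X) (k : ℕ → Fin n) (N : ℕ) : Set X :=
  ⋂ j ∈ Finset.range (N + 1), (f^[j]) ⁻¹' (U (k j))

/-- A homeomorphism `f` of `X` is positive refinement expansive if there is a finite open cover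
`U_1, ..., U_n` of `X` such that for every open cover `𝒱` of `X` and every sequence
`k : ℕ → {1, ..., n}` there is `N` such that `⋂_{j=0}^{N} f^{-j}(U_{k_j})` is contained in some
member of `𝒱`. -/
def PositiveRefinementExpansive {X : Type u} [TopologicalSpace X] (f : X ≃ₜ X) : Prop :=
  ∃ (n : ℕ) (U : Fin n → Set X), (∀ i, IsOpen (U i)) ∧ (⋃ i, U i) = univ ∧
    ∀ 𝒱 : Set (Set X), (∀ V ∈ 𝒱, IsOpen V) → ⋃₀ 𝒱 = univ →
      ∀ k : ℕ → Fin n, ∃ N : ℕ, ∃ V ∈ 𝒱, itin f U k N ⊆ V

lemma mem_itin {X : Type u} {f : X → X} {n : ℕ} {U : Fin n → Set X} {k : ℕ → Fin n} {N : ℕ}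
    {x : X} : x ∈ itin f U k N ↔ ∀ j ≤ N, f^[j] x ∈ U (k j) := by
  simp [itin]

lemma itin_congr {X : Type u} {f : X → X} {n : ℕ} {U : Fin n → Set X} {k l : ℕ → Fin n} {N : ℕ}
    (h : ∀ j ≤ N, k j = l j) : itin f U k N = itin f U l N := by
  ext x
  rw [mem_itin, mem_itin]
  refine ⟨fun hx j hj => ?_, fun hx j hj => ?_⟩
  · rw [← h j hj]
    exact hx j hj
  · rw [h j hj]
    exact hx j hj

lemma itin_anti {X : Type u} {f : X → X} {n : ℕ} {U : Fin n → Set X} {k : ℕ → Fin n} {N M : ℕ}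
    (h : N ≤ M) : itin f U k M ⊆ itin f U k N := by
  intro x hx
  rw [mem_itin] at *
  exact fun j hj => hx j (hj.trans h)

/-- Compactness of the sequence space makes `N` uniform. -/
lemma uniform {X : Type u} {f : X → X} {n : ℕ} {U : Fin n → Set X} {𝒱 : Set (Set X)}
    (h : ∀ k : ℕ → Fin n, ∃ N : ℕ, ∃ V ∈ 𝒱, itin f U k N ⊆ V) :
    ∃ N : ℕ, ∀ k : ℕ → Fin n, ∃ V ∈ 𝒱, itin f U k N ⊆ V := by
  let O : ℕ → Set (ℕ → Fin n) := fun N => {k | ∃ V ∈ 𝒱, itin f U k N ⊆ V}
  have hO : ∀ N, IsOpen (O N) := by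
    intro N
    rw [isOpen_iff_forall_mem_open]
    intro k hk
    refine ⟨{l | ∀ j ∈ Finset.range (N + 1), l j = k j}, ?_, ?_, fun _ _ => rfl⟩
    · intro l hl
      obtain ⟨V, hV, hkV⟩ := hk
      refine ⟨V, hV, ?_⟩
      rwa [itin_congr (l := k)]
      intro j hj
      exact hl j (by simpa [Nat.lt_succ_iff] using hj)
    · have : {l : ℕ → Fin n | ∀ j ∈ Finset.range (N + 1), l j = k j} =
          ⋂ j ∈ Finset.range (N + 1), (fun l : ℕ → Fin n => l j) ⁻¹' {k j} := by
        ext l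
        simp
      rw [this]
      apply isOpen_biInter_finset
      intro j _
      exact (isOpen_discrete _).preimage (continuous_apply j)
  have hmono : ∀ N M, N ≤ M → O N ⊆ O M := by
    rintro N M hNM k ⟨V, hV, hk⟩
    exact ⟨V, hV, (itin_anti hNM).trans hk⟩
  have hcov : (univ : Set (ℕ → Fin n)) ⊆ ⋃ N, O N := by
    intro k _
    obtain ⟨N, hN⟩ := h k
    exact mem_iUnion.2 ⟨N, hN⟩
  have hdir : Directed (· ⊆ ·) O := by
    intro N M
    exact ⟨max N M, hmono _ _ (le_max_left _ _), hmono _ _ (le_max_right _ _)⟩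
  obtain ⟨N, hN⟩ := isCompact_univ.elim_directed_cover O hO hcov hdir
  exact ⟨N, fun k => hN (mem_univ k)⟩

/-- If the cover `{f(U_i)}` is refined by the `N`-th cover, then the pull-back by `f^M` of the
`N`-th cover refines the `(M+N)`-th one. -/
lemma pull {X : Type u} {f : X → X} {n : ℕ} {U : Fin n → Set X} {N : ℕ}
    (h : ∀ k : ℕ → Fin n, ∃ i, ∀ x, (∀ j ≤ N, f^[j] (f x) ∈ U (k j)) → x ∈ U i) (M : ℕ) :
    ∀ k : ℕ → Fin n, ∃ k' : ℕ → Fin n, ∀ x, (∀ j ≤ N, f^[j] (f^[M] x) ∈ U (k j)) →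
      ∀ j ≤ M + N, f^[j] x ∈ U (k' j) := by
  induction M with
  | zero =>
    intro k
    exact ⟨k, fun x hx j hj => by simpa using hx j (by simpa using hj)⟩
  | succ M ih =>
    intro k
    obtain ⟨i, hi⟩ := h k
    obtain ⟨k', hk'⟩ := ih (fun j => if j = 0 then i else k (j - 1))
    refine ⟨fun j => if j ≤ M + N then k' j else k N, fun x hx j hj => ?_⟩
    by_cases hjM : j ≤ M + N
    · simp only [hjM, if_true]
      apply hk' x _ j hjM
      intro l hl
      by_cases hl0 : l = 0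
      · subst hl0
        simp only [if_true, Function.iterate_zero, id]
        apply hi
        intro j hj
        rw [← Function.iterate_succ_apply' f M x]
        exact hx j hj
      · simp only [hl0, if_false]
        have := hx (l - 1) (by omega)
        rw [← Function.iterate_add_apply] at this ⊢
        have e : l - 1 + (M + 1) = l + M := by omega
        rwa [e] at this
    · simp only [hjM, if_false]
      have hj' : j = N + (M + 1) := by omega
      have := hx N le_rfl
      rwa [← Function.iterate_add_apply, ← hj'] at this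

theorem finite_of_expansive {X : Type u} [TopologicalSpace X] [T1Space X] (f : X ≃ₜ X)
    (hf : PositiveRefinementExpansive f) : Finite X := by
  classical
  obtain ⟨n, U, hUo, hUc, hU⟩ := hf
  by_contra hinf
  rw [not_finite_iff_infinite] at hinf
  -- the cover by the sets `f(U_i)`
  obtain ⟨N, hN⟩ := uniform (hU (range fun i => f '' U i)
    (by rintro _ ⟨i, rfl⟩; exact f.isOpenMap _ (hUo i))
    (by
      rw [sUnion_range, ← image_iUnion, hUc, image_univ, f.surjective.range_eq]))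
  have hstep : ∀ k : ℕ → Fin n, ∃ i, ∀ x, (∀ j ≤ N, f^[j] (f x) ∈ U (k j)) → x ∈ U i := by
    intro k
    obtain ⟨_, ⟨i, rfl⟩, hi⟩ := hN k
    refine ⟨i, fun x hx => ?_⟩
    obtain ⟨y, hy, hyx⟩ := hi (mem_itin.2 hx)
    rwa [← f.injective hyx]
  -- the points
  let m := Fintype.card (Fin (N + 1) → Fin n)
  let p : Fin (m + 1) ↪ X := (Fin.valEmbedding).trans (Infinite.natEmbedding X)
  let W : Fin (m + 1) → Set X := fun i => (p '' {i}ᶜ)ᶜ
  have hW : ∀ i j, p i ∈ W j → i = j := by
    intro i j hij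
    by_contra hne
    exact hij ⟨i, hne, rfl⟩
  have hWo : ∀ V ∈ range W, IsOpen V := by
    rintro _ ⟨i, rfl⟩
    exact ((toFinite _).image p).isClosed.isOpen_compl
  have hWc : ⋃₀ (range W) = univ := by
    rw [eq_univ_iff_forall]
    intro x
    by_cases hx : ∃ i, p i = x
    · obtain ⟨i, rfl⟩ := hx
      refine ⟨W i, ⟨i, rfl⟩, ?_⟩
      rintro ⟨j, hj, hji⟩
      exact hj (p.injective hji)
    · refine ⟨W 0, ⟨0, rfl⟩, ?_⟩
      rintro ⟨j, _, hj⟩
      exact hx ⟨j, hj⟩
  obtain ⟨M, hM⟩ := uniform (hU (range W) hWo hWc)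
  have hcov : ∀ x : X, ∃ i, x ∈ U i := by
    intro x
    have : x ∈ ⋃ i, U i := by rw [hUc]; trivial
    simpa using this
  have hk : ∀ i : Fin (m + 1), ∃ k : Fin (N + 1) → Fin n,
      ∀ j : Fin (N + 1), f^[(j : ℕ)] (f^[M] (p i)) ∈ U (k j) := by
    intro i
    choose k hk using fun j : Fin (N + 1) => hcov (f^[(j : ℕ)] (f^[M] (p i)))
    exact ⟨k, hk⟩
  choose k hk using hk
  have hcard : Fintype.card (Fin (N + 1) → Fin n) < Fintype.card (Fin (m + 1)) := by
    rw [Fintype.card_fin]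
    exact Nat.lt_succ_self _
  obtain ⟨a, b, hab, hkab⟩ := Fintype.exists_ne_map_eq_of_card_lt k hcard
  have hn : 0 < n := Fin.pos (k a 0)
  let k0 : ℕ → Fin n := fun j => if h : j < N + 1 then k a ⟨j, h⟩ else ⟨0, hn⟩
  obtain ⟨k', hk'⟩ := pull hstep M k0
  obtain ⟨_, ⟨i, rfl⟩, hi⟩ := hM k'
  have key : ∀ c, k c = k a → c = i := by
    intro c hc
    apply hW
    apply hi
    rw [mem_itin]
    intro j hj
    apply hk' (p c) _ j (hj.trans (Nat.le_add_right _ _))
    intro l hl
    have hl' : l < N + 1 := Nat.lt_succ_of_le hl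
    simp only [k0, hl', dif_pos]
    rw [← hc]
    exact hk c ⟨l, hl'⟩
  exact hab ((key a rfl).trans (key b hkab.symm).symm)

theorem expansive_of_finite {X : Type u} [TopologicalSpace X] [T1Space X] [Finite X] :
    PositiveRefinementExpansive (Homeomorph.refl X) := by
  classical
  have := Fintype.ofFinite X
  let e := Fintype.equivFin X
  refine ⟨Fintype.card X, fun i => {e.symm i}, fun i => isOpen_discrete _, ?_, ?_⟩
  · rw [eq_univ_iff_forall]
    intro x
    exact mem_iUnion.2 ⟨e x, by simp⟩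
  · intro 𝒱 _ h𝒱 k
    have : e.symm (k 0) ∈ ⋃₀ 𝒱 := by rw [h𝒱]; trivial
    obtain ⟨V, hV, hkV⟩ := this
    refine ⟨0, V, hV, ?_⟩
    intro x hx
    have := mem_itin.1 hx 0 le_rfl
    have hx' : x = e.symm (k 0) := by simpa using this
    rwa [hx']

/-- **A T1 space admits a positive refinement expansive homeomorphism if and only if it is
finite**; in particular every T1 space with such a homeomorphism is finite. -/
theorem result (X : Type u) [TopologicalSpace X] [T1Space X] :
    (∃ f : X ≃ₜ X, PositiveRefinementExpansive f) ↔ Finite X :=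
  ⟨fun ⟨f, hf⟩ => finite_of_expansive f hf, fun _ => ⟨_, expansive_of_finite⟩⟩

end Pool.Agent.Results.MP_b50e26_gt.FiniteT1
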